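import Mathlib.Analysis.Normed.Lp.MeasurableSpace
import Mathlib.MeasureTheory.Constructions.HaarToSphere

/-! The notions of the problem in dimension `d`: collision operator in the `σ`-representation,
non-cutoff kernels, admissible data, classical solutions, implosion. -/

set_option autoImplicit false

open MeasureTheory Set Filter Topology
open scoped RealInnerProductSpace ContDiff

noncomputable section

namespace Pool.Agent.BoltzD.Stmt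

/-- positions and velocities -/
abbrev Rd (d : ℕ) := EuclideanSpace ℝ (Fin d)

/-- the unit sphere -/
abbrev Sph (d : ℕ) := Metric.sphere (0 : Rd d) 1

variable {d : ℕ}

/-- the lattice point with integer coordinates `n` -/
def lat (n : Fin d → ℤ) : Rd d := WithLp.toLp 2 fun i => (n i : ℝ)

/-- `v'` -/
def vPost (v w σ : Rd d) : Rd d := (1 / 2 : ℝ) • (v + w) + (‖v - w‖ / 2) • σ

/-- `v'_*` -/
def wPost (v w σ : Rd d) : Rd d := (1 / 2 : ℝ) • (v + w) - (‖v - w‖ / 2) • σ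

/-- `cos θ` -/
def cosTh (v w σ : Rd d) : ℝ := ⟪vPost v w σ - wPost v w σ, v - w⟫ / ‖v - w‖ ^ 2

/-- the integrand `(f'_* f' - f_* f) B(|v - v_*|, cos θ)` at `p = (v_*, σ)` -/
def collInt (B : ℝ → ℝ → ℝ) (f : Rd d → ℝ) (v : Rd d) (p : Rd d × Sph d) : ℝ :=
  (f (wPost v p.1 p.2) * f (vPost v p.1 p.2) - f p.1 * f v) * B ‖v - p.1‖ (cosTh v p.1 p.2)

/-- the measure `dv_* dσ`, with the surface measure on the sphere -/
def collMeas (d : ℕ) : Measure (Rd d × Sph d) :=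
  (volume : Measure (Rd d)).prod (volume : Measure (Rd d)).toSphere

/-- `Q(f,f)(v)` -/
def Q (B : ℝ → ℝ → ℝ) (f : Rd d → ℝ) (v : Rd d) : ℝ := ∫ p, collInt B f v p ∂collMeas d

/-- two-sided bounds `B(r, cos θ) ≈ r^γ |sin(θ/2)|^(-d+1-2s)` -/
def NonCutoff (d : ℕ) (γ s : ℝ) (B : ℝ → ℝ → ℝ) : Prop :=
  Measurable (Function.uncurry B) ∧ ∃ c C : ℝ, 0 < c ∧ ∀ r > 0, ∀ θ ∈ Ioc 0 Real.pi,
    c * (r ^ γ * |Real.sin (θ / 2)| ^ (-(d : ℝ) + 1 - 2 * s)) ≤ B r (Real.cos θ) ∧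
      B r (Real.cos θ) ≤ C * (r ^ γ * |Real.sin (θ / 2)| ^ (-(d : ℝ) + 1 - 2 * s))

/-- mass density -/
def mass (f : Rd d → ℝ) : ℝ := ∫ v, f v

/-- energy density -/
def energy (f : Rd d → ℝ) : ℝ := ∫ v, f v * ‖v‖ ^ 2

/-- entropy density -/
def entropy (f : Rd d → ℝ) : ℝ := ∫ v, f v * Real.log (f v)

/-- admissible data `f₀(x, v)` -/
structure Admissible (f₀ : Rd d → Rd d → ℝ) : Prop where
  smooth : ContDiff ℝ ∞ (Function.uncurry f₀)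
  periodic : ∀ n x, f₀ (x + lat n) = f₀ x
  nonneg : ∀ x v, 0 ≤ f₀ x v
  decay : ∀ q > (0 : ℝ), ∃ C, ∀ x v, f₀ x v ≤ C * √(1 + ‖v‖ ^ 2) ^ (-q)
  hydro : ∃ m₀ M₀ E₀ H₀ : ℝ, 0 < m₀ ∧ ∀ x, m₀ ≤ mass (f₀ x) ∧ mass (f₀ x) ≤ M₀ ∧
    energy (f₀ x) ≤ E₀ ∧ Integrable (fun v => f₀ x v * Real.log (f₀ x v)) ∧ entropy (f₀ x) ≤ H₀

/-- classical space-periodic solutions `f(t, x, v)` on `[0, T)` -/
structure ClassicalSol (B : ℝ → ℝ → ℝ) (T : ℝ) (f : ℝ → Rd d → Rd d → ℝ) : Prop where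
  c1 : ContDiffOn ℝ 1 (fun p : ℝ × Rd d × Rd d => f p.1 p.2.1 p.2.2) (Ico 0 T ×ˢ univ)
  periodic : ∀ t ∈ Ico 0 T, ∀ n x, f t (x + lat n) = f t x
  nonneg : ∀ t ∈ Ico 0 T, ∀ x v, 0 ≤ f t x v
  decay : ∀ T' < T, ∀ q > (0 : ℝ), ∃ C, ∀ t ∈ Icc 0 T', ∀ x v,
    f t x v ≤ C * √(1 + ‖v‖ ^ 2) ^ (-q)
  integrable : ∀ t ∈ Ico 0 T, ∀ x v, Integrable (collInt B (f t x) v) (collMeas d)
  eqn : ∀ t ∈ Ico 0 T, ∀ x v,
    derivWithin (fun τ => f τ x v) (Ico 0 T) t + fderiv ℝ (fun y => f t y v) x v = Q B (f t x) v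

/-- implosion at `x₀` at time `T`: mass and energy densities blow up at `x₀` and stay bounded
outside every neighbourhood of `x₀` on the torus -/
structure Implosion (T : ℝ) (f : ℝ → Rd d → Rd d → ℝ) (x₀ : Rd d) : Prop where
  mass_top : Tendsto (fun t => mass (f t x₀)) (𝓝[<] T) atTop
  energy_top : Tendsto (fun t => energy (f t x₀)) (𝓝[<] T) atTop
  bdd : ∀ U ∈ 𝓝 x₀, ∃ M : ℝ, ∀ t ∈ Ico 0 T, ∀ x, (∀ n, x + lat n ∉ U) →
    mass (f t x) ≤ M ∧ energy (f t x) ≤ M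

/-- the statement in dimension `d` -/
def MainD (d : ℕ) : Prop :=
  ∃ (γ s : ℝ) (B : ℝ → ℝ → ℝ), 0 < s ∧ s < 1 ∧ NonCutoff d γ s B ∧
    ∃ (T : ℝ) (f : ℝ → Rd d → Rd d → ℝ) (x₀ : Rd d), 0 < T ∧ Admissible (f 0) ∧
      ClassicalSol B T f ∧
      Implosion T f x₀

/-- the statement in every dimension -/
def Main : Prop := ∀ d : ℕ, 2 ≤ d → MainD d

/-- the kernel used in the proof: `B(r, cos θ) = 2^(3-d) r^28 |sin(θ/2)|^(1/2-d)` -/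
def Bk (d : ℕ) (r c : ℝ) : ℝ := 8 / 2 ^ d * r ^ 28 * ((1 - c) / 2) ^ (1 / 4 - d / 2 : ℝ)

end Pool.Agent.BoltzD.Stmt
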