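import Pool.Agent.BoltzD.Stmt

/-! Smooth solutions with rapid decay of all derivatives, and the statement in this class. -/

set_option autoImplicit false

open Set
open scoped ContDiff

namespace Pool.Agent.BoltzD.Stmt

variable {d : ℕ}

/-- `f(t, x, v)` is infinitely differentiable on `[0, T) × R^d × R^d` and each derivative decays
faster than every power of `|v|`, uniformly on `[0, T'] × R^d` for `T' < T` -/
structure Smooth (T : ℝ) (f : ℝ → Rd d → Rd d → ℝ) : Prop where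
  smooth : ContDiffOn ℝ ∞ (fun p : ℝ × Rd d × Rd d => f p.1 p.2.1 p.2.2) (Ico 0 T ×ˢ univ)
  decay : ∀ T' < T, ∀ n q : ℕ, ∃ C : ℝ, ∀ t ∈ Icc 0 T', ∀ x v : Rd d, (1 + ‖v‖) ^ q *
    ‖iteratedFDerivWithin ℝ n (fun p : ℝ × Rd d × Rd d => f p.1 p.2.1 p.2.2) (Ico 0 T ×ˢ univ)
      (t, x, v)‖ ≤ C

/-- the statement in the smooth class, in dimension `d` -/
def MainD2 (d : ℕ) : Prop :=
  ∃ (γ s : ℝ) (B : ℝ → ℝ → ℝ), 0 < s ∧ s < 1 ∧ NonCutoff d γ s B ∧
    ∃ (T : ℝ) (f : ℝ → Rd d → Rd d → ℝ) (x₀ : Rd d), 0 < T ∧ Admissible (f 0) ∧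
      ClassicalSol B T f ∧ Smooth T f ∧ Implosion T f x₀

/-- the statement in the smooth class, in every dimension -/
def Main2 : Prop := ∀ d : ℕ, 2 ≤ d → MainD2 d

end Pool.Agent.BoltzD.Stmt
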