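import Pool.Agent.BoltzD.Stmt2

/-! Uniqueness among classical solutions, and the statement with uniqueness. -/

set_option autoImplicit false

open Set

namespace Pool.Agent.BoltzD.Stmt

variable {d : ℕ}

/-- every classical solution with the same data agrees with `f` on the common time interval -/
def Unique (B : ℝ → ℝ → ℝ) (T : ℝ) (f : ℝ → Rd d → Rd d → ℝ) : Prop :=
  ∀ (T' : ℝ) (g : ℝ → Rd d → Rd d → ℝ), ClassicalSol B T' g → g 0 = f 0 →
    ∀ t ∈ Ico 0 (min T T'), g t = f t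

/-- the statement with uniqueness, in dimension `d` -/
def MainD3 (d : ℕ) : Prop :=
  ∃ (γ s : ℝ) (B : ℝ → ℝ → ℝ), 0 < s ∧ s < 1 ∧ NonCutoff d γ s B ∧
    ∃ (T : ℝ) (f : ℝ → Rd d → Rd d → ℝ) (x₀ : Rd d), 0 < T ∧ Admissible (f 0) ∧
      ClassicalSol B T f ∧ Smooth T f ∧ Unique B T f ∧ Implosion T f x₀

end Pool.Agent.BoltzD.Stmt
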